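import Pool.Agent.U737.MN.Stm3

/-!
# Project MN, package DiscLow: lower bound for the discriminant of a Kummer extension
-/

set_option autoImplicit false

open NumberField UniqueFactorizationMonoid

namespace Pool.Agent.U789.MN

section core

variable {M L : Type} [Field M] [NumberField M] [Field L] [NumberField L] [Algebra M L]

/-- the divisibility of the ramification index -/
lemma ram {ℓ : ℕ} (hℓ : ℓ.Prime) {α : 𝓞 M} (hα : α ≠ 0) {S : 𝓞 L}
    (hS : S ^ ℓ = algebraMap (𝓞 M) (𝓞 L) α) {𝔯 𝔠 P : Ideal (𝓞 M)}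
    (hfac : Ideal.span {α} = 𝔯 * 𝔠 ^ ℓ) (hP : P.IsPrime) (hP0 : P ≠ ⊥) (h1 : P ∣ 𝔯)
    (h2 : ¬ P ^ ℓ ∣ 𝔯) (Q : Ideal (𝓞 L)) [hQ : Q.IsPrime] [Q.LiesOver P] :
    Q ^ ℓ ∣ P.map (algebraMap (𝓞 M) (𝓞 L)) := by
  classical
  have hQ0 : Q ≠ ⊥ := Ideal.ne_bot_of_liesOver_of_ne_bot hP0 Q
  have hPp : Prime P := Ideal.prime_of_isPrime hP0 hP
  have hQp : Prime Q := Ideal.prime_of_isPrime hQ0 hQ
  have hspan0 : Ideal.span {α} ≠ ⊥ := by
    rw [Ne, Ideal.span_singleton_eq_bot]; exact hα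
  have hr0 : 𝔯 ≠ ⊥ := by
    rintro rfl
    apply hspan0
    rw [hfac, ← Ideal.zero_eq_bot, zero_mul]
  have hc0 : 𝔠 ≠ ⊥ := by
    rintro rfl
    apply hspan0
    rw [hfac, ← Ideal.zero_eq_bot, zero_pow hℓ.ne_zero, mul_zero]
  have hS0 : S ≠ 0 := by
    rintro rfl
    rw [zero_pow hℓ.ne_zero] at hS
    exact hα ((map_eq_zero_iff _ (FaithfulSMul.algebraMap_injective (𝓞 M) (𝓞 L))).1 hS.symm)
  have hspS0 : Ideal.span {S} ≠ ⊥ := by
    rw [Ne, Ideal.span_singleton_eq_bot]; exact hS0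
  have hfr : FiniteMultiplicity P 𝔯 := FiniteMultiplicity.of_prime_left hPp hr0
  have hfc : FiniteMultiplicity P 𝔠 := FiniteMultiplicity.of_prime_left hPp hc0
  have hfS : FiniteMultiplicity Q (Ideal.span {S}) := FiniteMultiplicity.of_prime_left hQp hspS0
  have key := Ideal.IsDedekindDomain.emultiplicity_map_eq_ramificationIdx'_mul (S := 𝓞 L)
    (I := Ideal.span {α}) (w := Q) hspan0 hPp.irreducible hQp.irreducible hQ0
  rw [Ideal.map_span, Set.image_singleton, ← hS, ← Ideal.span_singleton_pow,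
    emultiplicity_pow hQp, hfac, emultiplicity_mul hPp, emultiplicity_pow hPp,
    hfr.emultiplicity_eq_multiplicity, hfc.emultiplicity_eq_multiplicity,
    hfS.emultiplicity_eq_multiplicity] at key
  have key' : ℓ * multiplicity Q (Ideal.span {S}) =
      P.ramificationIdx' Q * (multiplicity P 𝔯 + ℓ * multiplicity P 𝔠) := by
    exact_mod_cast key
  have hx1 : 1 ≤ multiplicity P 𝔯 := by
    rw [← pow_one P] at h1
    exact hfr.le_multiplicity_of_pow_dvd h1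
  have hx2 : multiplicity P 𝔯 < ℓ := by
    by_contra hcon
    push Not at hcon
    exact h2 ((pow_dvd_pow P hcon).trans (pow_multiplicity_dvd P 𝔯))
  have hdv : ℓ ∣ P.ramificationIdx' Q := by
    have h3 : ℓ ∣ P.ramificationIdx' Q * (multiplicity P 𝔯 + ℓ * multiplicity P 𝔠) :=
      ⟨_, key'.symm⟩
    rcases hℓ.dvd_mul.1 h3 with h | h
    · exact h
    · exfalso
      have h4 : ℓ ∣ multiplicity P 𝔯 := (Nat.dvd_add_left ⟨_, rfl⟩).1 h
      exact absurd (Nat.le_of_dvd (by omega) h4) (by omega)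
  have he0 : P.ramificationIdx' Q ≠ 0 :=
    Ideal.IsDedekindDomain.ramificationIdx'_ne_zero_of_liesOver Q hP0
  have hle : ℓ ≤ P.ramificationIdx' Q := Nat.le_of_dvd (Nat.pos_of_ne_zero he0) hdv
  refine (pow_dvd_pow Q hle).trans ?_
  rw [Ideal.dvd_iff_le]
  exact Ideal.le_pow_ramificationIdx'

lemma card_le {P : Ideal (𝓞 M)} (hP0 : P ≠ ⊥) (Q : Ideal (𝓞 L)) [Q.IsPrime] [hlo : Q.LiesOver P] :
    Ideal.absNorm P ≤ Ideal.absNorm Q := by
  have hQ0 : Q ≠ ⊥ := Ideal.ne_bot_of_liesOver_of_ne_bot hP0 Q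
  have hfin : Finite (𝓞 L ⧸ Q) := Ideal.finiteQuotientOfFreeOfNeBot _ hQ0
  rw [Ideal.absNorm_apply, Ideal.absNorm_apply, Submodule.cardQuot_apply,
    Submodule.cardQuot_apply]
  exact Nat.card_le_card_of_injective (algebraMap (𝓞 M ⧸ P) (𝓞 L ⧸ Q))
    (FaithfulSMul.algebraMap_injective _ _)

theorem core {ℓ : ℕ} (hℓ : ℓ.Prime) (hfr : Module.finrank M L = ℓ) {α : 𝓞 M} (hα : α ≠ 0) {s : L}
    (hs : s ^ ℓ = algebraMap M L (α : M)) {𝔯 𝔠 : Ideal (𝓞 M)} {W : Finset (Ideal (𝓞 M))}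
    (hfac : Ideal.span {α} = 𝔯 * 𝔠 ^ ℓ) (hW : ∀ P ∈ W, P.IsPrime ∧ P ∣ 𝔯 ∧ ¬ P ^ ℓ ∣ 𝔯) :
    (discr M).natAbs ^ ℓ * (∏ P ∈ W, Ideal.absNorm P) ^ (ℓ - 1) ≤ (discr L).natAbs := by
  classical
  have hint : IsIntegral ℤ s := by
    apply IsIntegral.of_pow hℓ.pos
    rw [hs]
    exact (α.isIntegral_coe).map (IsScalarTower.toAlgHom ℤ M L)
  obtain ⟨S, hS'⟩ : ∃ S : 𝓞 L, (S : L) = s := ⟨⟨s, hint⟩, rfl⟩
  have hS : S ^ ℓ = algebraMap (𝓞 M) (𝓞 L) α := by
    apply RingOfIntegers.ext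
    have h1 : algebraMap (𝓞 L) L (S ^ ℓ) = s ^ ℓ := by
      rw [map_pow]
      exact congrArg (· ^ ℓ) hS'
    have h2 : algebraMap (𝓞 L) L (algebraMap (𝓞 M) (𝓞 L) α) = algebraMap M L (α : M) := rfl
    exact h1.trans (hs.trans h2.symm)
  have hspan0 : Ideal.span {α} ≠ ⊥ := by
    rw [Ne, Ideal.span_singleton_eq_bot]; exact hα
  have hW0 : ∀ P ∈ W, P ≠ ⊥ := by
    rintro P hP rfl
    have h1 := (hW _ hP).2.1
    rw [← Ideal.zero_eq_bot, zero_dvd_iff] at h1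
    apply hspan0
    rw [hfac, h1, zero_mul, Ideal.zero_eq_bot]
  have hex : ∀ P : Ideal (𝓞 M), P ∈ W → ∃ Q : Ideal (𝓞 L), Q.IsMaximal ∧ Q.LiesOver P := by
    intro P hP
    have hPm : P.IsMaximal := (hW P hP).1.isMaximal (hW0 P hP)
    exact Ideal.exists_maximal_ideal_liesOver_of_isIntegral P
  choose! Q hQm hQo using hex
  have hQ0 : ∀ P ∈ W, Q P ≠ ⊥ := by
    intro P hP
    have := hQo P hP
    exact Ideal.ne_bot_of_liesOver_of_ne_bot (hW0 P hP) (Q P)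
  have hdvd : ∏ P ∈ W, (Q P) ^ (ℓ - 1) ∣ differentIdeal (𝓞 M) (𝓞 L) := by
    apply Finset.prod_dvd_of_isRelPrime
    · intro P hP P' hP' hne
      have h1 : Prime (Q P) := Ideal.prime_of_isPrime (hQ0 P hP) (hQm P hP).isPrime
      have h2 : Prime (Q P') := Ideal.prime_of_isPrime (hQ0 P' hP') (hQm P' hP').isPrime
      refine IsRelPrime.pow ?_
      rw [h1.irreducible.isRelPrime_iff_not_dvd]
      intro hd
      have h3 : Q P = Q P' := associated_iff_eq.1 (h1.associated_of_dvd h2 hd)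
      have h4 := (hQo P hP).over
      have h5 := (hQo P' hP').over
      apply hne
      rw [h4, h5, h3]
    · intro P hP
      have hPm : P.IsMaximal := (hW P hP).1.isMaximal (hW0 P hP)
      have := hQo P hP
      have := (hQm P hP).isPrime
      exact pow_sub_one_dvd_differentIdeal_aux (𝓞 M) M L (Q P) hℓ.ne_zero (hW0 P hP)
        (ram hℓ hα hS hfac (hW P hP).1 (hW0 P hP) (hW P hP).2.1 (hW P hP).2.2 (Q P))
  have hd0 : Ideal.absNorm (differentIdeal (𝓞 M) (𝓞 L)) ≠ 0 := by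
    rw [Ne, Ideal.absNorm_eq_zero_iff]
    exact differentIdeal_ne_bot
  have h3 : ∏ P ∈ W, (Ideal.absNorm (Q P)) ^ (ℓ - 1) ≤
      Ideal.absNorm (differentIdeal (𝓞 M) (𝓞 L)) := by
    have h4 := map_dvd Ideal.absNorm hdvd
    rw [map_prod] at h4
    simp only [map_pow] at h4
    exact Nat.le_of_dvd (Nat.pos_of_ne_zero hd0) h4
  rw [natAbs_discr_eq_absNorm_differentIdeal_mul_natAbs_discr_pow M (𝓞 M) L (𝓞 L), hfr,
    mul_comm, ← Finset.prod_pow]
  refine Nat.mul_le_mul_right _ (le_trans ?_ h3)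
  apply Finset.prod_le_prod'
  intro P hP
  have := hQo P hP
  have := (hQm P hP).isPrime
  exact Nat.pow_le_pow_left (card_le (hW0 P hP) (Q P)) _

end core

open Pool.Agent.U737.MN
open Pool.Agent.TH444.ML (dsc)

theorem t_DiscLow : (Pool.Agent.U737.MN.DegL → Pool.Agent.U737.MN.DiscLow) := by
  intro hdeg ℓ K Ω _ _ _ _ _ M L _ _ α s 𝔯 𝔠 W hℓ hz hα hs hkum hfac hW
  obtain ⟨hfd, hfr⟩ := hdeg ℓ K Ω M L s hℓ hz hkum
  obtain ⟨-, -, hL⟩ := hkum
  have hML : M ≤ L := by rw [hL]; exact le_sup_left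
  have hsL : s ∈ L := by
    rw [hL]
    exact (le_sup_right : IntermediateField.adjoin K {s} ≤ _)
      (IntermediateField.mem_adjoin_simple_self K s)
  have hNL : NumberField L := NumberField.of_module_finite K L
  let _ : Algebra M L := (IntermediateField.inclusion hML).toRingHom.toAlgebra
  have : IsScalarTower K M L := IsScalarTower.of_algebraMap_eq fun x => rfl
  have hfr2 : Module.finrank M L = ℓ := by
    have h1 := Module.finrank_mul_finrank K M L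
    have h2 : 0 < Module.finrank K M := Module.finrank_pos
    rw [hfr, mul_comm] at h1
    exact Nat.eq_of_mul_eq_mul_right h2 h1
  have hmain := core (M := M) (L := L) hℓ hfr2 hα (s := (⟨s, hsL⟩ : L)) (by
    apply Subtype.ext
    exact hs) hfac hW
  have h1 : dsc M = ((discr M).natAbs : ℝ) := by
    rw [dsc, dif_pos (inferInstance : NumberField M)]
    rw [Nat.cast_natAbs]
  have h2 : dsc L = ((discr L).natAbs : ℝ) := by
    rw [dsc, dif_pos hNL]
    rw [Nat.cast_natAbs]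
  rw [h1, h2]
  have h3 : (((discr M).natAbs ^ ℓ * (∏ P ∈ W, Ideal.absNorm P) ^ (ℓ - 1) : ℕ) : ℝ) ≤
      ((discr L).natAbs : ℝ) := by exact_mod_cast hmain
  push_cast at h3
  exact h3

end Pool.Agent.U789.MN
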